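import Pool.Agent.H313R3.LW.F

/-!
# Differences over a fixed ratio: zeros are visible
-/

open Complex MeasureTheory ProbabilityTheory Filter Topology Set Metric
open scoped ContDiff

set_option linter.unusedSectionVars false
set_option autoImplicit false

namespace H313.OS

open H353 H313.LW

noncomputable section

variable {a : ℕ → ℝ}

/-- the difference of the summatory function over a fixed ratio, exponential scale -/
def DF (a : ℕ → ℝ) (h u : ℝ) : ℝ := SS a (Real.exp (u + h)) - SS a (Real.exp u)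

theorem DF_meas (a : ℕ → ℝ) (h : ℝ) : Measurable (DF a h) := by
  have := SS_meas a
  unfold DF
  fun_prop

theorem SSe_le (a : ℕ → ℝ) {u q : ℝ} (hu : u ≤ q) : |SS a (Real.exp u)| ≤ ∑ n ∈ Finset.Icc 1 ⌊Real.exp q⌋₊, |a n| :=
  abs_SS_le a (Real.exp_le_exp.2 hu)

theorem DF_le (a : ℕ → ℝ) (h : ℝ) {u q : ℝ} (hu : u ≤ q) :
    |DF a h u| ≤ (∑ n ∈ Finset.Icc 1 ⌊Real.exp (q + h)⌋₊, |a n|) + ∑ n ∈ Finset.Icc 1 ⌊Real.exp q⌋₊, |a n| := by
  unfold DF
  refine (abs_sub _ _).trans (add_le_add (SSe_le a (by linarith)) (SSe_le a hu))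

theorem DF_int (a : ℕ → ℝ) (h K p q : ℝ) : IntegrableOn (fun u => |DF a h u - K|) (Icc p q) := by
  refine Integrable.mono' (g := fun _ => ((∑ n ∈ Finset.Icc 1 ⌊Real.exp (q + h)⌋₊, |a n|) +
      ∑ n ∈ Finset.Icc 1 ⌊Real.exp q⌋₊, |a n|) + |K|)
    (continuous_const.continuousOn.integrableOn_compact isCompact_Icc) ?_ ?_
  · have := DF_meas a h
    exact (by fun_prop : Measurable fun u => |DF a h u - K|).aestronglyMeasurable
  · refine (ae_restrict_iff' measurableSet_Icc).2 (ae_of_all _ fun u hu => ?_)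
    rw [Real.norm_eq_abs, abs_abs]
    exact (abs_sub _ _).trans (add_le_add (DF_le a h hu.2) le_rfl)

theorem SS_mul_int (a : ℕ → ℝ) {L : ℝ} {ψ : ℝ → ℝ} (hψ : TF L ψ) (h t : ℝ) :
    Integrable (fun u => SS a (Real.exp (u + h)) * ψ (t - u)) := by
  obtain ⟨B, hB⟩ := TF_bdd hψ
  have hc := hψ.smooth.continuous
  have hMm := SS_meas a
  set M := ∑ n ∈ Finset.Icc 1 ⌊Real.exp (t + h)⌋₊, |a n| with hM
  have h1 : Integrable ((Icc (t - L) t).indicator (fun _ => M * B)) := by
    have : IntegrableOn (fun _ : ℝ => M * B) (Icc (t - L) t) :=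
      continuous_const.continuousOn.integrableOn_compact isCompact_Icc
    exact this.integrable_indicator measurableSet_Icc
  refine h1.mono' ?_ (ae_of_all _ fun u => ?_)
  · exact (by fun_prop : Measurable fun u => SS a (Real.exp (u + h)) * ψ (t - u)).aestronglyMeasurable
  · by_cases hu : u ∈ Icc (t - L) t
    · rw [indicator_of_mem hu, norm_mul, Real.norm_eq_abs, Real.norm_eq_abs]
      exact mul_le_mul (SSe_le a (by linarith [hu.2])) (hB _) (abs_nonneg _)
        ((abs_nonneg _).trans (SSe_le a (le_refl (t + h))))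
    · rw [indicator_of_notMem hu]
      have h0 : ψ (t - u) = 0 := hψ.supp _ fun h => hu ⟨by linarith [h.2], by linarith [h.1]⟩
      rw [h0, mul_zero, norm_zero]

theorem DF_mul_int (a : ℕ → ℝ) {L : ℝ} {ψ : ℝ → ℝ} (hψ : TF L ψ) (h t : ℝ) :
    Integrable (fun u => DF a h u * ψ (t - u)) := by
  have h1 := SS_mul_int a hψ h t
  have h2 := SS_mul_int a hψ 0 t
  refine (h1.sub h2).congr (ae_of_all _ fun u => ?_)
  simp only [DF, add_zero, Pi.sub_apply]
  ring

/-- the representation of the differences -/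
theorem SGh_repr (a0 : a 0 = 0) {L : ℝ} {φ : ℝ → ℝ} (hφ : VZ φ) (hφ' : TF L (deriv φ)) (h t : ℝ) :
    SG a φ (t + h) - SG a φ t = ∫ u : ℝ, DF a h u * deriv φ (t - u) := by
  rw [SG_reprG a0 hφ hφ', SG_reprG a0 hφ hφ']
  have e1 : ∫ u : ℝ, SS a (Real.exp u) * deriv φ (t + h - u) = ∫ u : ℝ, SS a (Real.exp (u + h)) * deriv φ (t - u) := by
    rw [← integral_add_right_eq_self (fun u => SS a (Real.exp u) * deriv φ (t + h - u)) h]
    refine integral_congr_ae (ae_of_all _ fun u => ?_)
    simp only
    rw [show t + h - (u + h) = t - u by ring]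
  have h1 := SS_mul_int a hφ' h t
  have h2 := SS_mul_int a hφ' 0 t
  simp only [add_zero] at h2
  rw [e1, ← integral_sub h1 h2]
  refine integral_congr_ae (ae_of_all _ fun u => ?_)
  simp only [DF]
  ring

/-- the bound by the local mean deviation from a constant -/
theorem SGh_le_localK (a0 : a 0 = 0) {L B : ℝ} {φ : ℝ → ℝ} (hφ : TF L φ) (hB : ∀ t, |deriv φ t| ≤ B)
    (h t K : ℝ) : |SG a φ (t + h) - SG a φ t| ≤ B * ∫ u in Icc (t - L) t, |DF a h u - K| := by
  have hi : Integrable (deriv φ) :=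
    Continuous.integrable_of_hasCompactSupport hφ.deriv.smooth.continuous hφ.deriv.hcs
  have hi' : Integrable (fun u => deriv φ (t - u)) := hi.comp_sub_left t
  have h0 : ∫ u : ℝ, deriv φ (t - u) = 0 := by
    rw [integral_sub_left_eq_self (fun v => deriv φ v) volume t]
    exact integral_eq_zero_of_hasDerivAt_of_integrable
      (fun x => ((contDiff_infty_iff_deriv.1 hφ.smooth).1 x).hasDerivAt) hi
      (Continuous.integrable_of_hasCompactSupport hφ.smooth.continuous hφ.hcs)
  have hi2 := DF_mul_int a hφ.deriv h t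
  have e1 : SG a φ (t + h) - SG a φ t = ∫ u : ℝ, (DF a h u - K) * deriv φ (t - u) := by
    rw [SGh_repr a0 (vz_of_TF hφ) hφ.deriv]
    have : ∀ u : ℝ, (DF a h u - K) * deriv φ (t - u) =
        DF a h u * deriv φ (t - u) - K * deriv φ (t - u) := fun u => by ring
    simp_rw [this]
    rw [integral_sub hi2 (hi'.const_mul K), integral_const_mul, h0, mul_zero, sub_zero]
  rw [e1, ← integral_const_mul, ← integral_indicator measurableSet_Icc]
  refine abs_integral_le_integral_abs.trans ?_
  refine integral_mono_of_nonneg (ae_of_all _ fun u => abs_nonneg _) ?_ (ae_of_all _ fun u => ?_)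
  · have hI : IntegrableOn (fun u => B * |DF a h u - K|) (Icc (t - L) t) :=
      (DF_int a h K (t - L) t).const_mul B
    exact hI.integrable_indicator measurableSet_Icc
  · show |(DF a h u - K) * deriv φ (t - u)| ≤ _
    by_cases hu : u ∈ Icc (t - L) t
    · rw [indicator_of_mem hu, abs_mul, mul_comm]
      exact mul_le_mul_of_nonneg_right (hB _) (abs_nonneg _)
    · rw [indicator_of_notMem hu]
      have h0 : deriv φ (t - u) = 0 := hφ.deriv.supp _ fun h => hu ⟨by linarith [h.2], by linarith [h.1]⟩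
      rw [h0, mul_zero, abs_zero]

/-- summing differences -/
theorem tele (G : ℝ → ℝ) (θ C h : ℝ) (hθ : 0 < θ) (hh : 0 < h) (hz : ∀ t ≤ 0, G t = 0)
    (hb : ∀ t, |G (t + h) - G t| ≤ C * Real.exp (θ * t)) : ∃ C' : ℝ, ∀ t, |G t| ≤ C' * Real.exp (θ * t) := by
  have hC0 : 0 ≤ C := by
    have := (abs_nonneg _).trans (hb 0)
    simpa using this
  have he : 0 < Real.exp (θ * h) - 1 := by
    have : 1 < Real.exp (θ * h) := Real.one_lt_exp_iff.2 (by positivity)
    linarith
  set C' := C / (Real.exp (θ * h) - 1) with hC'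
  have hC'0 : 0 ≤ C' := by positivity
  have hCC : C' * Real.exp (θ * h) = C' + C := by
    rw [hC']
    field_simp
    ring
  refine ⟨C', ?_⟩
  have key : ∀ n : ℕ, ∀ t : ℝ, t ≤ n * h → |G t| ≤ C' * Real.exp (θ * t) := by
    intro n
    induction n with
    | zero =>
      intro t ht
      rw [hz t (by simpa using ht), abs_zero]
      positivity
    | succ n ih =>
      intro t ht
      push_cast at ht
      have h1 := ih (t - h) (by linarith)
      have h2 := hb (t - h)
      rw [sub_add_cancel] at h2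
      have h3 : |G t| ≤ |G t - G (t - h)| + |G (t - h)| := by
        have := abs_add_le (G t - G (t - h)) (G (t - h))
        simpa using this
      have h4 : C' * Real.exp (θ * t) = (C' + C) * Real.exp (θ * (t - h)) := by
        rw [← hCC, mul_assoc, ← Real.exp_add]
        congr 2
        ring
      rw [h4]
      linarith
  intro t
  obtain ⟨n, hn⟩ := exists_nat_gt (t / h)
  refine key n t ?_
  rw [div_lt_iff₀ hh] at hn
  exact hn.le

end

end H313.OS
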