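import Pool.Agent.H313R3.OS.A

/-!
# A zero is visible in the differences over a fixed ratio
-/

open Complex MeasureTheory ProbabilityTheory Filter Topology Set Metric
open scoped ContDiff

set_option linter.unusedSectionVars false
set_option autoImplicit false

namespace H313.OS

open H353 H313.LW

noncomputable section

variable {a : ℕ → ℝ}

/-- A zero is visible in every window of differences, modulo constants. -/
theorem not_smallD (ha : Nice a) (ρ : ℂ) (hρ : FF ρ = 0) (hre : 1 / 2 < ρ.re) (him : 0 < ρ.im) (δ : ℝ) (hδ : 0 < δ)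
    (h : ℝ) (hh : 0 < h)
    (hsm : ∀ κ > 0, ∃ᶠ t in atTop, ∃ K : ℝ, ∫ u in Icc (t - δ) t, |DF a h u - K| ≤
      κ * Real.exp (ρ.re * t)) :
    False := by
  classical
  have hβ1 : ρ.re < 1 := ZU.J_g2b.FF_zero_re hρ
  set θ : ℝ := (1 / 2 + ρ.re) / 2 with hθ
  set σ : ℝ := (1 / 2 + θ) / 2 with hσ
  have h1 : 1 / 2 < σ := by rw [hσ, hθ]; linarith
  have h2 : σ < θ := by rw [hσ, hθ]; linarith
  have h3 : θ < ρ.re := by rw [hθ]; linarith
  have h4 : σ < 1 := by linarith
  have hθ0 : 0 < θ := by linarith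
  have := ZS_countable σ h1 h4
  set L : ℝ := min δ (Real.pi / ρ.im) with hL
  have hL0 : 0 < L := lt_min hδ (div_pos Real.pi_pos him)
  obtain ⟨T0, hT0⟩ := hT_small σ h1 h4 (L / 2) (by linarith)
  set T : ℝ := max T0 ρ.im with hT'
  have hTs : ∑' i, hT σ T i < L / 2 :=
    lt_of_le_of_lt ((hT_summable σ T h1 h4).tsum_le_tsum (fun i => hT_anti σ T0 T (le_max_left _ _) i)
      (hT_summable σ T0 h1 h4)) hT0
  have hPh := Ph_ST (L / 2) (by linarith)
  set Bs := Av (bx σ) (hT σ T) (Ph (L / 2)) with hBs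
  have hB : ST L Bs := (Av_ST _ _ (hT_nonneg _ T) (hT_summable _ T h1 h4) hPh).mono (by linarith)
  have hBm : Monotone Bs := Av_mono _ _ (hT_nonneg _ T) (hT_summable _ T h1 h4) hPh (Ph_mono _ (by linarith))
  have hBne : DD (deriv Bs) ρ ≠ 0 := by
    intro hz
    have h5 := mono_long hL0 hB hBm ρ hz
    rw [abs_of_pos him] at h5
    have h6 : L ≤ Real.pi / ρ.im := min_le_right _ _
    rw [le_div_iff₀ him] at h6
    linarith
  obtain ⟨g0, hg0, hg0s⟩ := PF_step ((LZ σ T).erase ρ) hB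
  set c : ℝ := 2 * ρ.re / ‖ρ‖ ^ 2 with hc
  set d : ℝ := 1 / ‖ρ‖ ^ 2 with hd
  set gs : ℕ → ℝ → ℝ := fun j => (kp c d)^[j] g0 with hgs
  have hgs1 : ∀ j, gs (j + 1) = kp c d (gs j) := by
    intro j
    rw [hgs]
    simp only
    rw [Function.iterate_succ_apply']
  have hST : ∀ j, ST L (gs j) := by
    intro j
    induction j with
    | zero => exact hg0
    | succ j ih => rw [hgs1]; exact kp_ST ih _ _
  have hDD : ∀ j s, DD (deriv (gs j)) s = qf ρ s ^ j * DD (deriv g0) s := by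
    intro j s
    induction j with
    | zero => simp [hgs]
    | succ j ih =>
      rw [hgs1, kp_DD (hST j), ih, pow_succ]
      unfold qf
      rw [hc, hd]
      ring
  have hmem : ρ ∈ LZ σ T := by
    rw [mem_LZ]
    exact ⟨hρ, ⟨by linarith, hβ1.le⟩, him.le, le_max_right _ _⟩
  have hKm : ∀ s, DD (deriv (gs (mu ρ))) s = DD (deriv (Ph (L / 2))) s * KL σ T s := by
    intro s
    rw [hDD, hg0s, hBs, DD_Av _ _ (hT_nonneg _ T) (hT_summable _ T h1 h4) hPh]
    unfold KL PF
    rw [← Finset.mul_prod_erase (LZ σ T) _ hmem]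
    ring
  -- the differences
  set G : ℕ → ℝ → ℝ := fun j t => SG a (deriv (gs j)) (t + h) - SG a (deriv (gs j)) t with hG
  have hPm : ∃ C : ℝ, ∀ t : ℝ, |G (mu ρ) t| ≤ C * Real.exp (θ * t) := by
    obtain ⟨C, hC⟩ := core_deriv ha h1 h2 (by linarith) (by linarith : 0 < L / 2) (hST (mu ρ)) (KL_kill σ T h1 h4) hKm
    refine ⟨C * Real.exp (θ * h) + C, fun t => ?_⟩
    have c1 := hC (t + h)
    have c2 := hC t
    rw [show θ * (t + h) = θ * h + θ * t by ring, Real.exp_add] at c1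
    refine (abs_sub _ _).trans ?_
    calc _ ≤ C * (Real.exp (θ * h) * Real.exp (θ * t)) + C * Real.exp (θ * t) := add_le_add c1 c2
      _ = _ := by ring
  -- the derivative commutes with the operator
  have hcomm0 : ∀ j t, SG a (deriv (gs (j + 1))) t = SG a (deriv (gs j)) t - c * SG a (deriv (deriv (gs j))) t +
      d * SG a (deriv (deriv (deriv (gs j)))) t := by
    intro j t
    have e : deriv (kp c d (gs j)) = kp c d (deriv (gs j)) := by
      funext t
      have hh := (hST j).smooth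
      have k1 : ContDiff ℝ ∞ (deriv (gs j)) := (contDiff_infty_iff_deriv.1 hh).2
      have k2 : ContDiff ℝ ∞ (deriv (deriv (gs j))) := (contDiff_infty_iff_deriv.1 k1).2
      have a1 := ((contDiff_infty_iff_deriv.1 hh).1 t).hasDerivAt
      have a2 := ((contDiff_infty_iff_deriv.1 k1).1 t).hasDerivAt
      have a3 := ((contDiff_infty_iff_deriv.1 k2).1 t).hasDerivAt
      exact ((a1.sub (a2.const_mul c)).add (a3.const_mul d)).deriv
    rw [hgs1, e, SG_kp (vz_of_ST (hST j)).deriv]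
  set G1 : ℕ → ℝ → ℝ := fun j t => SG a (deriv (deriv (gs j))) (t + h) - SG a (deriv (deriv (gs j))) t with hG1
  set G2 : ℕ → ℝ → ℝ := fun j t => SG a (deriv (deriv (deriv (gs j)))) (t + h) -
    SG a (deriv (deriv (deriv (gs j)))) t with hG2
  have hcomm : ∀ j t, G (j + 1) t = G j t - c * G1 j t + d * G2 j t := by
    intro j t
    simp only [hG, hG1, hG2]
    rw [hcomm0, hcomm0]
    ring
  have hd1 : ∀ j t, HasDerivAt (G j) (G1 j t) t := by
    intro j t
    have hv := (vz_of_ST (hST j)).deriv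
    exact ((SG_hasDeriv hv (t + h)).comp_add_const t h).sub (SG_hasDeriv hv t)
  have hd2 : ∀ j t, HasDerivAt (G1 j) (G2 j t) t := by
    intro j t
    have hv := (vz_of_ST (hST j)).deriv.deriv
    exact ((SG_hasDeriv hv (t + h)).comp_add_const t h).sub (SG_hasDeriv hv t)
  have hc2 : ∀ j, Continuous (G2 j) := by
    intro j
    have hv := (vz_of_ST (hST j)).deriv.deriv.deriv
    have hcc : Continuous (SG a (deriv (deriv (deriv (gs j))))) :=
      continuous_iff_continuousAt.2 fun t => (SG_hasDeriv hv t).continuousAt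
    exact (hcc.comp (continuous_add_const h)).sub hcc
  have hstep : ∀ j, (∃ C : ℝ, ∀ t : ℝ, |G (j + 1) t| ≤ C * Real.exp (θ * t)) →
      ∃ C : ℝ, ∀ t : ℝ, |G j t| ≤ C * Real.exp (θ * t) := by
    intro j hj
    obtain ⟨C, hC⟩ := hj
    obtain ⟨B1, hB1⟩ := TF_bdd (hST j).tf.deriv
    obtain ⟨B2, hB2⟩ := TF_bdd (hST j).tf.deriv.deriv
    have hB10 : 0 ≤ B1 := (abs_nonneg _).trans (hB1 0)
    have hB20 : 0 ≤ B2 := (abs_nonneg _).trans (hB2 0)
    refine descent ρ θ C (G j) (G1 j) (G2 j) (G (j + 1)) him.ne' h3 (hd1 j) (hd2 j) (hc2 j) (hcomm j) hC ?_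
    intro κ hκ
    refine (hsm (κ / (B1 + B2 + 1)) (by positivity)).mono fun t ht => ?_
    obtain ⟨K, ht⟩ := ht
    have i1 : |G j t| ≤ _ := SGh_le_localK ha.zero (hST j).tf hB1 h t K
    have i2 : |G1 j t| ≤ _ := SGh_le_localK ha.zero (hST j).tf.deriv hB2 h t K
    have i3 : ∫ u in Icc (t - L) t, |DF a h u - K| ≤ ∫ u in Icc (t - δ) t, |DF a h u - K| := by
      refine setIntegral_mono_set (DF_int a h K _ _) (ae_of_all _ fun u => abs_nonneg _) ?_
      refine (Icc_subset_Icc_left ?_).eventuallyLE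
      have : L ≤ δ := min_le_left _ _
      linarith
    have i4 : 0 ≤ ∫ u in Icc (t - L) t, |DF a h u - K| := integral_nonneg fun _ => abs_nonneg _
    calc |G j t| + |G1 j t|
        ≤ (B1 + B2) * ∫ u in Icc (t - L) t, |DF a h u - K| := by linarith
      _ ≤ (B1 + B2 + 1) * ∫ u in Icc (t - L) t, |DF a h u - K| := by nlinarith
      _ ≤ (B1 + B2 + 1) * (κ / (B1 + B2 + 1) * Real.exp (ρ.re * t)) := by
          refine mul_le_mul_of_nonneg_left (i3.trans ht) (by positivity)
      _ = κ * Real.exp (ρ.re * t) := by field_simp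
  have hall : ∀ m, (∃ C : ℝ, ∀ t : ℝ, |G m t| ≤ C * Real.exp (θ * t)) →
      ∃ C : ℝ, ∀ t : ℝ, |G 0 t| ≤ C * Real.exp (θ * t) := by
    intro m
    induction m with
    | zero => exact id
    | succ m ih => exact fun h => ih (hstep m h)
  obtain ⟨C0, hC0⟩ := hall _ hPm
  have hneg : ∀ t ≤ 0, SG a (deriv (gs 0)) t = 0 := by
    intro t ht
    have hz : ∀ n : ℕ, 0 < n → t ≤ Real.log n := fun n hn =>
      ht.trans (Real.log_nonneg (by exact_mod_cast hn))
    rw [SGv_eq_sum (vz_of_ST (hST 0)).deriv 0 t hz]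
    simp [ha.zero]
  obtain ⟨C, hC⟩ := tele _ θ C0 h hθ0 hh hneg hC0
  have hC' := int_bound ha.zero (by linarith : 0 < θ) (hST 0) hC
  have hz := ha.dd (hST 0) θ (C / θ) (by linarith) (by linarith) hC' ρ hρ h3
  have hz' : DD (deriv g0) ρ = 0 := hz
  rw [hg0s] at hz'
  rcases mul_eq_zero.1 hz' with h | h
  · unfold PF at h
    rw [Finset.prod_eq_zero_iff] at h
    obtain ⟨z, hz1, hz2⟩ := h
    rw [Finset.mem_erase, mem_LZ] at hz1
    have hz3 := (pow_eq_zero_iff (Nat.one_le_iff_ne_zero.1 (mu_pos z hz1.2.1))).1 hz2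
    refine qf_ne z ρ ?_ hz1.1.symm ?_ hz3
    · rintro rfl
      have := hz1.2.2.1.1
      simp at this
      linarith
    · intro h
      have h5 := congrArg Complex.im h
      simp only [Complex.conj_im] at h5
      have := hz1.2.2.2.1
      linarith
  · exact hBne h

theorem not_smallD' (ha : Nice a) (ρ : ℂ) (hρ : riemannZeta ρ = 0) (hre : 1 / 2 < ρ.re) (δ : ℝ) (hδ : 0 < δ)
    (h : ℝ) (hh : 0 < h)
    (hsm : ∀ κ > 0, ∃ᶠ t in atTop, ∃ K : ℝ, ∫ u in Icc (t - δ) t, |DF a h u - K| ≤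
      κ * Real.exp (ρ.re * t)) :
    False := by
  rcases lt_or_gt_of_ne (FF_im_ne ρ (FF_of_zeta ρ hρ) (by linarith)) with h' | h'
  · refine not_smallD ha (starRingEnd ℂ ρ) ?_ (by simpa using hre) (by simpa using h') δ hδ h hh (by simpa using hsm)
    rw [FF_conj, FF_of_zeta ρ hρ]
    simp
  · exact not_smallD ha ρ (FF_of_zeta ρ hρ) hre h' δ hδ h hh hsm

end

end H313.OS
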