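import Pool.Agent.H313R3.OS.B
import Pool.Agent.H313R3.LW.E

/-!
# One-sided hypotheses on differences
-/

open Complex MeasureTheory ProbabilityTheory Filter Topology Set Metric
open scoped ContDiff

set_option linter.unusedSectionVars false
set_option autoImplicit false

namespace H313.OS

open H353 H313.LW

noncomputable section

variable {a : ℕ → ℝ}

theorem exp_window_gen (f : ℝ → ℝ) (hf0 : ∀ y, 0 ≤ f y) (p q : ℝ)
    (hint : IntegrableOn f (Icc (Real.exp p) (Real.exp q))) :
    ∫ u in Icc p q, f (Real.exp u) ≤ Real.exp (-p) * ∫ y in Icc (Real.exp p) (Real.exp q), f y := by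
  have himg : Real.exp '' Icc p q = Icc (Real.exp p) (Real.exp q) := by
    ext y
    constructor
    · rintro ⟨u, hu, rfl⟩
      exact ⟨Real.exp_le_exp.2 hu.1, Real.exp_le_exp.2 hu.2⟩
    · intro hy
      have hy0 : 0 < y := (Real.exp_pos p).trans_le hy.1
      refine ⟨Real.log y, ⟨?_, ?_⟩, Real.exp_log hy0⟩
      · rw [Real.le_log_iff_exp_le hy0]; exact hy.1
      · rw [Real.log_le_iff_le_exp hy0]; exact hy.2
  have key := integral_image_eq_integral_abs_deriv_smul (s := Icc p q) measurableSet_Icc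
    (f := Real.exp) (f' := Real.exp) (fun x _ => (Real.hasDerivAt_exp x).hasDerivWithinAt)
    Real.exp_injective.injOn f
  have keyi := (integrableOn_image_iff_integrableOn_abs_deriv_smul (s := Icc p q) measurableSet_Icc
    (f := Real.exp) (f' := Real.exp) (fun x _ => (Real.hasDerivAt_exp x).hasDerivWithinAt)
    Real.exp_injective.injOn f).1 (by rw [himg]; exact hint)
  rw [himg] at key
  rw [key, ← integral_const_mul]
  refine setIntegral_mono_on_ae ?_ (keyi.const_mul _) measurableSet_Icc (ae_of_all _ fun u hu => ?_)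
  · have h2 : IntegrableOn (fun u => Real.exp (-u) * (|Real.exp u| • f (Real.exp u))) (Icc p q) := by
      have hc : ContinuousOn (fun u : ℝ => Real.exp (-u)) (Icc p q) := by fun_prop
      exact IntegrableOn.continuousOn_mul hc keyi isCompact_Icc
    refine h2.congr_fun (fun u _ => ?_) measurableSet_Icc
    simp only
    rw [smul_eq_mul, abs_of_pos (Real.exp_pos u), ← mul_assoc, ← Real.exp_add, neg_add_cancel,
      Real.exp_zero, one_mul]
  · rw [smul_eq_mul, abs_of_pos (Real.exp_pos u), ← mul_assoc, ← Real.exp_add]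
    have : 1 ≤ Real.exp (-p + u) := Real.one_le_exp (by linarith [hu.1])
    nlinarith [hf0 (Real.exp u)]

theorem DF_pos_int (a : ℕ → ℝ) (h s p q : ℝ) : IntegrableOn (fun u => max (s * DF a h u) 0) (Icc p q) := by
  have h0 := (DF_int a h 0 p q).const_mul |s|
  refine Integrable.mono' h0 ?_ ?_
  · have := DF_meas a h
    exact (by fun_prop : Measurable fun u => max (s * DF a h u) 0).aestronglyMeasurable
  · refine ae_of_all _ fun u => ?_
    rw [Real.norm_eq_abs, abs_of_nonneg (le_max_right _ _), sub_zero, ← abs_mul]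
    exact max_le (le_abs_self _) (abs_nonneg _)

/-- one-sided smallness on a window gives two-sided smallness on a subwindow -/
theorem one_to_twoD (a0 : a 0 = 0) (s : ℝ) (hs : s = 1 ∨ s = -1) {L : ℝ} {g : ℝ → ℝ} (hL : 0 < L) (hg : ST L g)
    (hm : Monotone g) (θ C h : ℝ) (hb : ∀ t, |SG a g (t + h) - SG a g t| ≤ C * Real.exp (θ * t)) :
    ∃ D p q : ℝ, 0 < D ∧ p < q ∧ ∀ t : ℝ,
      ∫ u in Icc (t - q) (t - p), |DF a h u - 0| ≤
        D * ((∫ u in Icc (t - L) t, max (s * DF a h u) 0) + Real.exp (θ * t)) := by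
  obtain ⟨c, p, q, hc, hpq, hcpq⟩ := step_deriv_pos hL hg
  obtain ⟨B, hB⟩ := TF_bdd hg.tf
  have hB0 : 0 ≤ B := (abs_nonneg _).trans (hB 0)
  have hC0 : 0 ≤ C := by
    have := (abs_nonneg _).trans (hb 0)
    simpa using this
  have hpos : ∀ t, 0 ≤ deriv g t := fun t => hm.deriv_nonneg
  refine ⟨(2 * B + C + 1) / c, p, q, by positivity, hpq, fun t => ?_⟩
  have hg0 : Continuous (deriv g) := hg.tf.smooth.continuous
  have hMm := DF_meas a h
  have hI2 : Integrable (fun u => DF a h u * deriv g (t - u)) := DF_mul_int a hg.tf h t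
  have hI : Integrable (fun u => |DF a h u - 0| * deriv g (t - u)) := by
    refine hI2.abs.mono' ?_ (ae_of_all _ fun u => ?_)
    · exact (by fun_prop : Measurable fun u => |DF a h u - 0| * deriv g (t - u)).aestronglyMeasurable
    · rw [norm_mul, Real.norm_eq_abs, Real.norm_eq_abs, abs_abs, sub_zero, ← abs_mul]
  have hI3 : Integrable (fun u => max (s * DF a h u) 0 * deriv g (t - u)) := by
    refine hI.mono' ?_ (ae_of_all _ fun u => ?_)
    · exact (by fun_prop : Measurable fun u => max (s * DF a h u) 0 * deriv g (t - u)).aestronglyMeasurable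
    · rw [norm_mul, Real.norm_eq_abs, Real.norm_eq_abs, abs_of_nonneg (hpos _), abs_of_nonneg (le_max_right _ _),
        sub_zero]
      refine mul_le_mul_of_nonneg_right ?_ (hpos _)
      refine max_le ?_ (abs_nonneg _)
      rcases hs with h | h
      · rw [h, one_mul]; exact le_abs_self _
      · rw [h, neg_one_mul]; exact neg_le_abs _
  have hid : ∀ m : ℝ, |m| = 2 * max (s * m) 0 - s * m := by
    intro m
    rcases hs with h | h
    · rw [h, one_mul]
      rcases le_total m 0 with h | h
      · rw [max_eq_right h, abs_of_nonpos h]; ring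
      · rw [max_eq_left h, abs_of_nonneg h]; ring
    · rw [h, neg_one_mul]
      rcases le_total m 0 with h | h
      · rw [max_eq_left (by linarith), abs_of_nonpos h]; ring
      · rw [max_eq_right (by linarith), abs_of_nonneg h]; ring
  have e1 : ∫ u, |DF a h u - 0| * deriv g (t - u) =
      2 * (∫ u, max (s * DF a h u) 0 * deriv g (t - u)) - s * (SG a g (t + h) - SG a g t) := by
    rw [SGh_repr a0 (vz_of_ST hg) hg.tf, ← integral_const_mul, ← integral_const_mul,
      ← integral_sub (hI3.const_mul 2) (hI2.const_mul s)]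
    refine integral_congr_ae (ae_of_all _ fun u => ?_)
    simp only
    rw [sub_zero, hid]
    ring
  have e2 : ∫ u, max (s * DF a h u) 0 * deriv g (t - u) ≤
      B * ∫ u in Icc (t - L) t, max (s * DF a h u) 0 := by
    rw [← integral_const_mul, ← integral_indicator measurableSet_Icc]
    refine integral_mono hI3 ?_ fun u => ?_
    · have : IntegrableOn (fun u => B * max (s * DF a h u) 0) (Icc (t - L) t) := (DF_pos_int a h s _ _).const_mul B
      exact this.integrable_indicator measurableSet_Icc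
    · by_cases hu : u ∈ Icc (t - L) t
      · rw [indicator_of_mem hu, mul_comm]
        exact mul_le_mul_of_nonneg_right ((le_abs_self _).trans (hB _)) (le_max_right _ _)
      · rw [indicator_of_notMem hu]
        have h0 : deriv g (t - u) = 0 := hg.tf.supp _ fun h => hu ⟨by linarith [h.2], by linarith [h.1]⟩
        simp [h0]
  have e3 : c * ∫ u in Icc (t - q) (t - p), |DF a h u - 0| ≤ ∫ u, |DF a h u - 0| * deriv g (t - u) := by
    rw [← integral_const_mul, ← integral_indicator measurableSet_Icc]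
    refine integral_mono ?_ hI fun u => ?_
    · have : IntegrableOn (fun u => c * |DF a h u - 0|) (Icc (t - q) (t - p)) := (DF_int a h 0 _ _).const_mul c
      exact this.integrable_indicator measurableSet_Icc
    · by_cases hu : u ∈ Icc (t - q) (t - p)
      · rw [indicator_of_mem hu, mul_comm]
        exact mul_le_mul_of_nonneg_left (hcpq _ ⟨by linarith [hu.2], by linarith [hu.1]⟩) (abs_nonneg _)
      · rw [indicator_of_notMem hu]
        exact mul_nonneg (abs_nonneg _) (hpos _)
  have e4 : -(s * (SG a g (t + h) - SG a g t)) ≤ C * Real.exp (θ * t) := by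
    have h5 := hb t
    rw [abs_le] at h5
    rcases hs with h | h
    · rw [h]; linarith [h5.1]
    · rw [h]; linarith [h5.2]
  have hP : 0 ≤ ∫ u in Icc (t - L) t, max (s * DF a h u) 0 := integral_nonneg fun _ => le_max_right _ _
  have hE := Real.exp_pos (θ * t)
  rw [div_mul_eq_mul_div, le_div_iff₀ hc]
  nlinarith [mul_nonneg hC0 hP, mul_nonneg hB0 hE.le]

/-- the difference over the ratio `lam` -/
def DE (a : ℕ → ℝ) (lam y : ℝ) : ℝ := SS a (lam * y) - SS a y

theorem DE_meas (a : ℕ → ℝ) (lam : ℝ) : Measurable (DE a lam) := by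
  have := SS_meas a
  unfold DE
  fun_prop

theorem DF_eq_DE (a : ℕ → ℝ) (lam u : ℝ) (hl : 0 < lam) : DF a (Real.log lam) u = DE a lam (Real.exp u) := by
  unfold DF DE
  rw [Real.exp_add, Real.exp_log hl, mul_comm lam]

theorem DE_int (a : ℕ → ℝ) (lam p q : ℝ) (hl : 0 < lam) : IntegrableOn (DE a lam) (Icc p q) := by
  refine Integrable.mono' (g := fun _ => ((∑ n ∈ Finset.Icc 1 ⌊lam * q⌋₊, |a n|) +
      ∑ n ∈ Finset.Icc 1 ⌊q⌋₊, |a n|))
    (continuous_const.continuousOn.integrableOn_compact isCompact_Icc) ?_ ?_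
  · exact (DE_meas a lam).aestronglyMeasurable
  · refine (ae_restrict_iff' measurableSet_Icc).2 (ae_of_all _ fun u hu => ?_)
    rw [Real.norm_eq_abs]
    unfold DE
    refine (abs_sub _ _).trans (add_le_add (abs_SS_le a ?_) (abs_SS_le a hu.2))
    exact mul_le_mul_of_nonneg_left hu.2 hl.le

/-- **One-sided local to global principle for differences.** -/
theorem one_sidedD (s : ℝ) (hs : s = 1 ∨ s = -1) (θ : ℝ) (h1 : 1 / 2 < θ) (h2 : θ < 1) (C lam : ℝ) (hl : 1 < lam)
    (hf : ∃ᶠ x : ℝ in atTop, ∫ y in x..(AA θ) * x, max (s * DE aL lam y) 0 ≤ C * x ^ (1 + θ))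
    (ρ : ℂ) (hre : θ < ρ.re) : riemannZeta ρ ≠ 0 := by
  intro hz
  have hl0 : 0 < lam := by linarith
  set h : ℝ := Real.log lam with hh
  have hh0 : 0 < h := Real.log_pos hl
  obtain ⟨g, hg, hm⟩ := good_mono (1 - θ) θ (by linarith) h1 h2
  set L : ℝ := (1 - θ) + HT (sg θ) with hL
  have hL0 : 0 < L := by
    have := HT_nonneg (sg θ)
    rw [hL]; linarith
  obtain ⟨C1, _, hC1⟩ := hg.lam
  have hC1' : ∀ t, |SG aL g (t + h) - SG aL g t| ≤ (C1 * Real.exp (θ * h) + C1) * Real.exp (θ * t) := by
    intro t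
    have c1 := hC1 (t + h)
    have c2 := hC1 t
    rw [show θ * (t + h) = θ * h + θ * t by ring, Real.exp_add] at c1
    refine (abs_sub _ _).trans ?_
    calc _ ≤ C1 * (Real.exp (θ * h) * Real.exp (θ * t)) + C1 * Real.exp (θ * t) := add_le_add c1 c2
      _ = _ := by ring
  obtain ⟨D, p, q, hD, hpq, key⟩ := one_to_twoD nice_lam.zero s hs hL0 hg.st hm θ _ h hC1'
  refine not_smallD' nice_lam ρ hz (by linarith) (q - p) (by linarith) h hh0 fun κ hκ => ?_
  have ht : Tendsto (fun x : ℝ => Real.log x + L - p) atTop atTop := by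
    have : Tendsto (fun x : ℝ => Real.log x + (L - p)) atTop atTop :=
      tendsto_atTop_add_const_right _ _ Real.tendsto_log_atTop
    refine this.congr fun x => by ring
  refine ht.frequently ?_
  have hA : AA θ = Real.exp L := rfl
  set K : ℝ := D * (|C| + Real.exp (θ * L)) with hK
  set κ' : ℝ := κ * Real.exp (ρ.re * (L - p)) with hκ'
  have hκ'0 : 0 < κ' := by positivity
  refine (hf.and_eventually ((eventually_ge_atTop (1:ℝ)).and (rpow_ev κ' θ ρ.re K hκ'0 hre))).mono fun x hx => ?_
  obtain ⟨hx1, hx2, hx3⟩ := hx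
  have hx0 : 0 < x := by linarith
  have hA1 : 1 ≤ AA θ := by rw [hA]; exact Real.one_le_exp hL0.le
  have e1 : Real.log x + L - p - (q - p) = (Real.log x + L) - q := by ring
  refine ⟨0, ?_⟩
  rw [e1]
  refine (key (Real.log x + L)).trans ?_
  have e2 := exp_window_gen (fun y => max (s * DE aL lam y) 0) (fun y => le_max_right _ _) (Real.log x) (Real.log x + L)
    (by
      refine Integrable.mono' (g := fun y => |s| * |DE aL lam y|) ?_ ?_ ?_
      · exact (DE_int aL lam _ _ hl0).abs.const_mul _
      · have := DE_meas aL lam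
        exact (by fun_prop : Measurable fun u => max (s * DE aL lam u) 0).aestronglyMeasurable
      · refine ae_of_all _ fun u => ?_
        rw [Real.norm_eq_abs, abs_of_nonneg (le_max_right _ _), ← abs_mul]
        exact max_le (le_abs_self _) (abs_nonneg _))
  have e3 : Real.exp (Real.log x + L) = AA θ * x := by
    rw [Real.exp_add, Real.exp_log hx0, hA, mul_comm]
  have e2' : ∫ y in Icc x (AA θ * x), max (s * DE aL lam y) 0 = ∫ y in x..(AA θ) * x, max (s * DE aL lam y) 0 := by
    rw [intervalIntegral.integral_of_le (by nlinarith), integral_Icc_eq_integral_Ioc]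
  rw [e3, Real.exp_neg, Real.exp_log hx0, e2'] at e2
  have e2'' : ∀ u, DF aL h u = DE aL lam (Real.exp u) := fun u => DF_eq_DE aL lam u hl0
  have e4 : Real.log x + L - L = Real.log x := by ring
  rw [e4]
  simp_rw [e2'']
  have e5 : x⁻¹ * ∫ y in x..(AA θ) * x, max (s * DE aL lam y) 0 ≤ |C| * x ^ θ := by
    have h5 : x⁻¹ * ∫ y in x..(AA θ) * x, max (s * DE aL lam y) 0 ≤ x⁻¹ * (C * x ^ (1 + θ)) :=
      mul_le_mul_of_nonneg_left hx1 (by positivity)
    refine h5.trans ?_
    rw [Real.rpow_add hx0, Real.rpow_one]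
    have e3 : x⁻¹ * (C * (x * x ^ θ)) = C * x ^ θ := by field_simp
    rw [e3]
    exact mul_le_mul_of_nonneg_right (le_abs_self _) (Real.rpow_nonneg hx0.le _)
  have e6 : Real.exp (θ * (Real.log x + L)) = Real.exp (θ * L) * x ^ θ := by
    rw [Real.rpow_def_of_pos hx0, ← Real.exp_add]
    congr 1
    ring
  have e7 : Real.exp (ρ.re * (Real.log x + L - p)) = Real.exp (ρ.re * (L - p)) * x ^ ρ.re := by
    rw [Real.rpow_def_of_pos hx0, ← Real.exp_add]
    congr 1
    ring
  rw [e6, e7]
  have e8 : D * ((∫ u in Icc (Real.log x) (Real.log x + L), max (s * DE aL lam (Real.exp u)) 0) + Real.exp (θ * L) * x ^ θ)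
      ≤ D * (|C| * x ^ θ + Real.exp (θ * L) * x ^ θ) := by
    refine mul_le_mul_of_nonneg_left ?_ hD.le
    linarith
  refine e8.trans ?_
  rw [hK, hκ'] at hx3
  nlinarith [hx3]

end

end H313.OS
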