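import Pool.Agent.H313R3.OS.C
import Pool.Agent.H313R3.PW.F

/-!
# One-sided prime counts in sparse short windows and zero-free half-planes
-/

open Complex MeasureTheory ProbabilityTheory Filter Topology Set Metric
open scoped ContDiff

set_option linter.unusedSectionVars false
set_option autoImplicit false

namespace H313.OS

open H353 H313.LW H313.PW

noncomputable section

/-- the error term for the primes in `(y, lam y]` -/
def PD (lam y : ℝ) : ℝ := Chebyshev.psi (lam * y) - Chebyshev.psi y - (lam - 1) * y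

theorem DE_near (lam y : ℝ) (hl : 0 < lam) (hy : 0 ≤ y) : |DE aL lam y - PD lam y| ≤ 1 := by
  unfold DE PD
  rw [SS_aL, SS_aL]
  have h1 := Nat.floor_le hy
  have h2 := Nat.lt_floor_add_one y
  have h3 := Nat.floor_le (mul_nonneg hl.le hy)
  have h4 := Nat.lt_floor_add_one (lam * y)
  rw [abs_le]
  constructor <;> nlinarith

theorem PD_int (lam p q : ℝ) (hl : 0 < lam) : IntervalIntegrable (PD lam) volume p q := by
  have h1 : IntervalIntegrable (fun y => Chebyshev.psi (lam * y)) volume p q :=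
    Monotone.intervalIntegrable fun x y hxy => Chebyshev.psi_mono (mul_le_mul_of_nonneg_left hxy hl.le)
  have h2 : IntervalIntegrable Chebyshev.psi volume p q := Chebyshev.psi_mono.intervalIntegrable
  have h3 : IntervalIntegrable (fun y : ℝ => (lam - 1) * y) volume p q :=
    (by fun_prop : Continuous fun y : ℝ => (lam - 1) * y).intervalIntegrable p q
  exact (h1.sub h2).sub h3

theorem PD_pos_int (s lam p q : ℝ) (hl : 0 < lam) :
    IntervalIntegrable (fun y => max (s * PD lam y) 0) volume p q := by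
  have h1 := (PD_int lam p q hl).const_mul s
  exact ⟨h1.1.pos_part, h1.2.pos_part⟩

theorem DE_pos_int (s lam p q : ℝ) (hl : 0 < lam) :
    IntervalIntegrable (fun y => max (s * DE aL lam y) 0) volume p q := by
  have h0 : IntervalIntegrable (DE aL lam) volume p q := by
    rw [intervalIntegrable_iff]
    exact (DE_int aL lam (min p q) (max p q) hl).mono_set (by
      intro x hx
      rw [mem_uIoc] at hx
      rcases hx with h | h
      · exact ⟨(min_le_left _ _).trans h.1.le, h.2.trans (le_max_right _ _)⟩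
      · exact ⟨(min_le_right _ _).trans h.1.le, h.2.trans (le_max_left _ _)⟩)
  have h1 := h0.const_mul s
  exact ⟨h1.1.pos_part, h1.2.pos_part⟩

/-- **One-sided principle for primes in intervals of fixed ratio.** -/
theorem one_sided_psi (s : ℝ) (hs : s = 1 ∨ s = -1) (θ : ℝ) (h1 : 1 / 2 < θ) (h2 : θ < 1) (C lam : ℝ) (hl : 1 < lam)
    (hf : ∃ᶠ x : ℝ in atTop, ∫ y in x..(AA θ) * x, max (s * PD lam y) 0 ≤ C * x ^ (1 + θ))
    (ρ : ℂ) (hre : θ < ρ.re) : riemannZeta ρ ≠ 0 := by
  have hl0 : 0 < lam := by linarith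
  have hA1 := AA_gt θ h2
  refine one_sidedD s hs θ h1 h2 (C + AA θ) lam hl ?_ ρ hre
  refine (hf.and_eventually (eventually_ge_atTop (1:ℝ))).mono fun x hx => ?_
  obtain ⟨hx1, hx2⟩ := hx
  have hx0 : 0 < x := by linarith
  have hxA : x ≤ AA θ * x := by nlinarith
  have e1 : ∫ y in x..(AA θ) * x, max (s * DE aL lam y) 0 ≤
      ∫ y in x..(AA θ) * x, (max (s * PD lam y) 0 + 1) := by
    refine intervalIntegral.integral_mono_on hxA (DE_pos_int s lam _ _ hl0)
      ((PD_pos_int s lam _ _ hl0).add intervalIntegrable_const) fun y hy => ?_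
    have hn := abs_le.1 (DE_near lam y hl0 (by linarith [hy.1]))
    refine max_le ?_ (by have := le_max_right (s * PD lam y) 0; linarith)
    have h5 := le_max_left (s * PD lam y) 0
    rcases hs with h | h
    · rw [h] at h5 ⊢; linarith [hn.1, hn.2]
    · rw [h] at h5 ⊢; linarith [hn.1, hn.2]
  rw [intervalIntegral.integral_add (PD_pos_int s lam _ _ hl0) intervalIntegrable_const,
    intervalIntegral.integral_const, smul_eq_mul, mul_one] at e1
  have e2 : x ≤ x ^ (1 + θ) := by
    nth_rewrite 1 [← Real.rpow_one x]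
    exact Real.rpow_le_rpow_of_exponent_le hx2 (by linarith)
  nlinarith

/-- bound for `PD` in a zero-free half plane -/
theorem PD_of_free (θ : ℝ) (h0 : 1 / 2 ≤ θ) (h1 : θ < 1) (hz : ∀ s : ℂ, θ < s.re → riemannZeta s ≠ 0)
    (ε : ℝ) (hε : 0 < ε) (lam : ℝ) (hl : 1 < lam) :
    ∀ᶠ x : ℝ in atTop, ∀ y ∈ Icc x (2 * x), |PD lam y| ≤ x ^ (θ + ε) := by
  obtain ⟨C, hC, hb⟩ := psi_bound θ h0 h1 (free_FF θ hz) (ε / 2) (by linarith)
  filter_upwards [rpow_ev 1 (θ + ε / 2) (θ + ε) (C * (2 * lam) ^ (θ + ε / 2) + C * 2 ^ (θ + ε / 2)) one_pos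
    (by linarith), eventually_ge_atTop (1:ℝ)] with x hx1 hx2 y hy
  have hx0 : 0 < x := by linarith
  have hy1 : 1 ≤ y := by linarith [hy.1]
  have b1 := hb y hy1
  have b2 := hb (lam * y) (by nlinarith)
  rw [SS_psi] at b1 b2
  have p1 : y ^ (θ + ε / 2) ≤ 2 ^ (θ + ε / 2) * x ^ (θ + ε / 2) := by
    rw [← Real.mul_rpow (by norm_num) hx0.le]
    exact Real.rpow_le_rpow (by linarith) hy.2 (by linarith)
  have p2 : (lam * y) ^ (θ + ε / 2) ≤ (2 * lam) ^ (θ + ε / 2) * x ^ (θ + ε / 2) := by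
    rw [← Real.mul_rpow (by linarith) hx0.le]
    exact Real.rpow_le_rpow (by positivity) (by nlinarith [hy.2]) (by linarith)
  have e : PD lam y = (Chebyshev.psi (lam * y) - lam * y) - (Chebyshev.psi y - y) := by
    unfold PD; ring
  rw [e]
  refine (abs_sub _ _).trans ?_
  rw [one_mul] at hx1
  nlinarith

/-- Q1 -/
def Q1 : Prop := ∃ σ₀ : ℝ, 1 / 2 < σ₀ ∧ σ₀ < 1 ∧ ∀ s : ℂ, σ₀ ≤ s.re → riemannZeta s ≠ 0

theorem abs_one_sided (s : ℝ) (hs : s = 1 ∨ s = -1) (x : ℝ) : s * x ≤ |x| := by
  rcases hs with h | h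
  · rw [h, one_mul]; exact le_abs_self _
  · rw [h, neg_one_mul]; exact neg_le_abs _

theorem q1_psi (s : ℝ) (hs : s = 1 ∨ s = -1) (lam : ℝ) (hl : 1 < lam) :
    Q1 ↔ ∃ η θ : ℝ, 0 < η ∧ θ < 1 ∧ ∃ᶠ x : ℝ in atTop, ∀ y ∈ Icc x ((1 + η) * x), s * PD lam y ≤ x ^ θ := by
  constructor
  · rintro ⟨σ₀, h1, h2, h3⟩
    refine ⟨1, σ₀ + (1 - σ₀) / 2, one_pos, by linarith, Eventually.frequently ?_⟩
    filter_upwards [PD_of_free σ₀ h1.le h2 (fun z hz => h3 z hz.le) ((1 - σ₀) / 2) (by linarith) lam hl]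
      with x hx y hy
    refine (abs_one_sided s hs _).trans (hx y ⟨hy.1, ?_⟩)
    linarith [hy.2]
  · rintro ⟨η, θ, hη, hθ, hf⟩
    have h3 : ∀ᶠ t in 𝓝[<] (1:ℝ), AA t < 1 + η :=
      AA_tendsto.eventually (gt_mem_nhds (show (1:ℝ) < 1 + η by linarith))
    have h4 : ∀ᶠ t in 𝓝[<] (1:ℝ), max θ (1 / 2) < t :=
      eventually_nhdsWithin_of_eventually_nhds (lt_mem_nhds (max_lt hθ (by norm_num)))
    obtain ⟨t, ⟨ht1, ht2⟩, ht3⟩ := ((h3.and h4).and self_mem_nhdsWithin).exists
    have ht3' : t < 1 := ht3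
    have ht4 : 1 / 2 < t := lt_of_le_of_lt (le_max_right _ _) ht2
    have ht5 : θ < t := lt_of_le_of_lt (le_max_left _ _) ht2
    have hA1 := AA_gt t ht3'
    refine ⟨(1 + t) / 2, by linarith, by linarith, fun ρ hρ => ?_⟩
    refine one_sided_psi s hs t ht4 ht3' (AA t) lam hl ?_ ρ (by linarith)
    refine (hf.and_eventually (eventually_ge_atTop (1:ℝ))).mono fun x hx => ?_
    obtain ⟨hx1, hx2⟩ := hx
    have hx0 : 0 < x := by linarith
    have hb : ∀ y ∈ Set.uIoc x ((AA t) * x), ‖max (s * PD lam y) 0‖ ≤ x ^ t := by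
      intro y hy
      rw [uIoc_of_le (by nlinarith)] at hy
      rw [Real.norm_eq_abs, abs_of_nonneg (le_max_right _ _)]
      refine max_le ?_ (by positivity)
      refine (hx1 y ⟨hy.1.le, hy.2.trans (by nlinarith)⟩).trans ?_
      exact Real.rpow_le_rpow_of_exponent_le hx2 ht5.le
    have h2 := intervalIntegral.norm_integral_le_of_norm_le_const hb
    have h5 : |AA t * x - x| ≤ AA t * x := by
      rw [abs_of_nonneg (by nlinarith)]
      linarith
    refine (le_abs_self _).trans (h2.trans ?_)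
    rw [Real.rpow_add hx0 1, Real.rpow_one]
    have h6 : 0 ≤ x ^ t := by positivity
    nlinarith

/-! ### from `π` to `ψ` -/

theorem DW_split (y t z : ℝ) (hy : 2 ≤ y) (hyt : y ≤ t) (htz : t ≤ z) : DW y z - DW y t = DW t z := by
  unfold DW
  have h1 := intervalIntegral.integral_add_adjacent_intervals (inv_log_int y t hy hyt)
    (inv_log_int t z (by linarith) htz)
  rw [← h1]
  ring

theorem DW_div_int (y z : ℝ) (hy : 2 ≤ y) (hyz : y ≤ z) : IntervalIntegrable (fun t => DW y t / t) volume y z := by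
  have hinv : ContinuousOn (fun t : ℝ => t⁻¹) (uIcc y z) := by
    refine ContinuousOn.inv₀ continuousOn_id fun t ht => ?_
    rw [uIcc_of_le hyz] at ht
    show t ≠ 0
    linarith [ht.1]
  have hpc : IntervalIntegrable (fun t => pc t / t) volume y z :=
    (pc_mono.intervalIntegrable (μ := volume) (a := y) (b := z)).mul_continuousOn hinv
  have hLi : ContinuousOn (fun t => ∫ u in y..t, 1 / Real.log u) (uIcc y z) := by
    have hii : IntegrableOn (fun u => 1 / Real.log u) (uIcc y z) := by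
      rw [uIcc_of_le hyz]
      exact (intervalIntegrable_iff_integrableOn_Icc_of_le hyz).1 (inv_log_int y z hy hyz)
    exact intervalIntegral.continuousOn_primitive_interval hii
  have hLi2 : IntervalIntegrable (fun t => (∫ u in y..t, 1 / Real.log u) / t) volume y z :=
    ContinuousOn.intervalIntegrable (hLi.mul hinv)
  have hcx : IntervalIntegrable (fun t => pc y / t) volume y z :=
    ContinuousOn.intervalIntegrable (continuousOn_const.mul hinv)
  refine ((hpc.sub hcx).sub hLi2).congr (fun t _ => ?_)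
  simp only [DW]
  ring

theorem theta_one (s : ℝ) (y z B : ℝ) (hy : 2 ≤ y) (hyz : y ≤ z)
    (hB : ∀ t ∈ Icc y z, s * DW t z ≤ B) :
    s * (Chebyshev.theta z - Chebyshev.theta y - (z - y)) ≤ B * Real.log z := by
  have hly : 0 < Real.log y := by have := log_ge_half hy; linarith
  have hinv : ContinuousOn (fun t : ℝ => t⁻¹) (uIcc y z) := by
    refine ContinuousOn.inv₀ continuousOn_id fun t ht => ?_
    rw [uIcc_of_le hyz] at ht
    show t ≠ 0
    linarith [ht.1]
  have hi1 := DW_div_int y z hy hyz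
  have hi2 : IntervalIntegrable (fun t : ℝ => DW y z / t) volume y z :=
    ContinuousOn.intervalIntegrable (continuousOn_const.mul hinv)
  have hi3 : IntervalIntegrable (fun t : ℝ => B / t) volume y z :=
    ContinuousOn.intervalIntegrable (continuousOn_const.mul hinv)
  have e1 : ∀ K : ℝ, ∫ t in y..z, K / t = K * (Real.log z - Real.log y) := by
    intro K
    have : ∀ t : ℝ, K / t = K * t⁻¹ := fun t => div_eq_mul_inv _ _
    simp_rw [this]
    rw [intervalIntegral.integral_const_mul, integral_inv_of_pos (by linarith) (by linarith),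
      Real.log_div (by linarith) (by linarith)]
  rw [theta_eq_DW y z hy hyz]
  have e2 : s * (DW y z * Real.log z - ∫ t in y..z, DW y t / t) = (s * DW y z) * Real.log y +
      s * ∫ t in y..z, (DW y z / t - DW y t / t) := by
    rw [intervalIntegral.integral_sub hi2 hi1, e1]
    ring
  rw [e2, ← intervalIntegral.integral_const_mul]
  have e3 : ∫ t in y..z, s * (DW y z / t - DW y t / t) ≤ ∫ t in y..z, B / t := by
    refine intervalIntegral.integral_mono_on hyz ((hi2.sub hi1).const_mul s) hi3 fun t ht => ?_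
    have ht0 : 0 < t := by linarith [ht.1]
    rw [← sub_div, DW_split y t z hy ht.1 ht.2, ← mul_div_assoc]
    exact div_le_div_of_nonneg_right (hB t ht) ht0.le
  rw [e1] at e3
  have e4 := mul_le_mul_of_nonneg_right (hB y ⟨le_rfl, hyz⟩) hly.le
  linarith

theorem q1_pi (s : ℝ) (hs : s = 1 ∨ s = -1) :
    Q1 ↔ ∃ η θ : ℝ, 0 < η ∧ θ < 1 ∧ ∃ᶠ x : ℝ in atTop, ∀ y z : ℝ, x ≤ y → y ≤ z → z ≤ (1 + η) * x →
      s * DW y z ≤ x ^ θ := by
  constructor
  · rintro ⟨σ₀, h1, h2, h3⟩
    set ε : ℝ := (1 - σ₀) / 4 with hε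
    have hε0 : 0 < ε := by rw [hε]; linarith
    refine ⟨1, σ₀ + 2 * ε, one_pos, by rw [hε]; linarith, Eventually.frequently ?_⟩
    have hd := DW_of_free σ₀ h1.le h2 (fun z hz => h3 z hz.le) ε hε0
    obtain ⟨N, hN⟩ := eventually_atTop.1 hd
    filter_upwards [rpow_ev 1 (σ₀ + ε) (σ₀ + 2 * ε) (2 ^ (σ₀ + ε)) one_pos (by linarith),
      eventually_ge_atTop (1:ℝ), eventually_ge_atTop N] with x hx1 hx2 hx3 y z hxy hyz hz
    have hx0 : 0 < x := by linarith
    have h5 := hN y (by linarith) z ⟨hyz, by linarith⟩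
    refine (abs_one_sided s hs _).trans (h5.trans ?_)
    have h6 : y ^ (σ₀ + ε) ≤ 2 ^ (σ₀ + ε) * x ^ (σ₀ + ε) := by
      rw [← Real.mul_rpow (by norm_num) hx0.le]
      exact Real.rpow_le_rpow (by linarith) (by linarith) (by linarith)
    linarith
  · rintro ⟨η, θ, hη, hθ, hf⟩
    set lam : ℝ := Real.sqrt (1 + η) with hlam
    have hl1 : 1 < lam := by
      rw [hlam, Real.lt_sqrt (by norm_num)]
      linarith
    have hll : lam * lam = 1 + η := Real.mul_self_sqrt (by linarith)
    refine (q1_psi s hs lam hl1).2 ?_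
    set θ' : ℝ := max θ (1 / 2) with hθ'
    have hθ1 : θ' < 1 := max_lt hθ (by norm_num)
    have hθ0 : 1 / 2 ≤ θ' := le_max_right _ _
    set ε : ℝ := (1 - θ') / 3 with hε
    have hε0 : 0 < ε := by rw [hε]; linarith
    obtain ⟨C2, hC2⟩ := Chebyshev.psi_sub_theta_le_mul_sqrt
    refine ⟨lam - 1, θ' + 2 * ε, by linarith, by rw [hε]; linarith, ?_⟩
    refine (hf.and_eventually ((eventually_ge_atTop (2:ℝ)).and (rpow_ev 1 (θ' + ε) (θ' + 2 * ε)
      ((1 + η) ^ ε / ε + |C2| * Real.sqrt (1 + η)) one_pos (by linarith)))).mono fun x hx => ?_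
    obtain ⟨hx1, hx2, hx3⟩ := hx
    have hx0 : 0 < x := by linarith
    intro y hy
    rw [show 1 + (lam - 1) = lam by ring] at hy
    have hy0 : 0 < y := by linarith [hy.1]
    set z := lam * y with hz
    have hyz : y ≤ z := by rw [hz]; nlinarith
    have hzx : z ≤ (1 + η) * x := by
      rw [hz, ← hll, mul_assoc]
      exact mul_le_mul_of_nonneg_left hy.2 (by linarith)
    have k1 := theta_one s y z (x ^ θ) (by linarith [hy.1]) hyz (fun t ht =>
      hx1 t z (by linarith [hy.1, ht.1]) ht.2 hzx)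
    have k2 : s * PD lam y ≤ s * (Chebyshev.theta z - Chebyshev.theta y - (z - y)) +
        |C2| * Real.sqrt z := by
      have h5 := Chebyshev.theta_le_psi y
      have h6 := Chebyshev.theta_le_psi z
      have h7 := hC2 z
      have h8 := hC2 y
      have h9 : Real.sqrt y ≤ Real.sqrt z := Real.sqrt_le_sqrt hyz
      have h10 : C2 * Real.sqrt z ≤ |C2| * Real.sqrt z :=
        mul_le_mul_of_nonneg_right (le_abs_self _) (Real.sqrt_nonneg _)
      have h11 : C2 * Real.sqrt y ≤ |C2| * Real.sqrt z :=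
        mul_le_mul (le_abs_self _) h9 (Real.sqrt_nonneg _) (abs_nonneg _)
      have e : PD lam y = (Chebyshev.theta z - Chebyshev.theta y - (z - y)) +
          ((Chebyshev.psi z - Chebyshev.theta z) - (Chebyshev.psi y - Chebyshev.theta y)) := by
        unfold PD
        rw [hz]
        ring
      rw [e]
      rcases hs with h | h
      · rw [h]; linarith
      · rw [h]; linarith
    have k3 : x ^ θ * Real.log z ≤ (1 + η) ^ ε / ε * x ^ (θ' + ε) := by
      have h5 : Real.log z ≤ ((1 + η) * x) ^ ε / ε :=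
        (Real.log_le_log (by linarith) hzx).trans (Real.log_le_rpow_div (by positivity) hε0)
      rw [Real.mul_rpow (by linarith) hx0.le] at h5
      have h6 : x ^ θ ≤ x ^ θ' := Real.rpow_le_rpow_of_exponent_le (by linarith) (le_max_left _ _)
      have h7 : x ^ (θ' + ε) = x ^ θ' * x ^ ε := Real.rpow_add hx0 _ _
      have h8 : 0 ≤ Real.log z := Real.log_nonneg (by linarith [hy.1])
      calc x ^ θ * Real.log z ≤ x ^ θ' * ((1 + η) ^ ε * x ^ ε / ε) :=
            mul_le_mul h6 h5 h8 (by positivity)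
        _ = _ := by rw [h7]; ring
    have k4 : |C2| * Real.sqrt z ≤ |C2| * Real.sqrt (1 + η) * x ^ (θ' + ε) := by
      have h5 : Real.sqrt z ≤ Real.sqrt (1 + η) * Real.sqrt x := by
        rw [← Real.sqrt_mul (by linarith)]
        exact Real.sqrt_le_sqrt hzx
      have h6 : Real.sqrt x ≤ x ^ (θ' + ε) := by
        rw [Real.sqrt_eq_rpow]
        exact Real.rpow_le_rpow_of_exponent_le (by linarith) (by linarith)
      rw [mul_assoc]
      refine mul_le_mul_of_nonneg_left (h5.trans ?_) (abs_nonneg _)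
      exact mul_le_mul_of_nonneg_left h6 (Real.sqrt_nonneg _)
    rw [one_mul] at hx3
    nlinarith

end

end H313.OS
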